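import Pool.Agent.Helper4.FSS.Defs2

/-!
# Block FSS-H: the locally determined homeomorphisms form a group
-/

set_option autoImplicit false

namespace Pool.Helper4.FSS

open Set

theorem nested_of_mem {X : Type*} [MetricSpace X] [IsUltrametricDist X] {B B' : Set X}
    (hB : IsBall B) (hB' : IsBall B') {x : X} (hx : x ∈ B) (hx' : x ∈ B') : B ⊆ B' ∨ B' ⊆ B := by
  obtain ⟨y, r, -, rfl⟩ := hB
  obtain ⟨z, s, -, rfl⟩ := hB'
  rcases IsUltrametricDist.ball_subset_trichotomy y z r s with h | h | h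
  · exact Or.inl h
  · exact Or.inr h
  · exact absurd hx' (Set.disjoint_left.1 h hx)

theorem loc_one {X : Type*} [MetricSpace X] [IsUltrametricDist X] (Sm : FSStr X) :
    Sm.Loc (1 : X ≃ₜ X) := by
  intro x
  have hB : IsBall (Metric.ball x 1) := ⟨x, 1, one_pos, rfl⟩
  exact ⟨Metric.ball x 1, Metric.ball x 1, hB, hB, Metric.mem_ball_self one_pos,
    Equiv.refl _, Sm.id_mem _ hB, fun y => rfl⟩

theorem loc_mul {X : Type*} [MetricSpace X] [IsUltrametricDist X] (Sm : FSStr X) (γ δ : X ≃ₜ X)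
    (h1 : Sm.Loc γ) (h2 : Sm.Loc δ) : Sm.Loc (γ * δ) := by
  intro x
  obtain ⟨B1, B1', hB1, hB1', hx, h, hh, hδ⟩ := h2 x
  obtain ⟨B2, B2', hB2, hB2', hx2, k, hk, hγ⟩ := h1 (δ x)
  have hx1 : δ x ∈ B1' := by
    rw [hδ ⟨x, hx⟩]
    exact (h ⟨x, hx⟩).2
  rcases nested_of_mem hB1' hB2 hx1 hx2 with hs | hs
  · obtain ⟨B4, hB4, l, hl, hl'⟩ := Sm.restrict_mem B2 B2' B1' hB2 hB2' hB1' k hk hs
    refine ⟨B1, B4, hB1, hB4, hx, h.trans l, Sm.comp_mem _ _ _ hB1 hB1' hB4 h hh l hl, ?_⟩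
    intro y
    change γ (δ y) = _
    rw [hδ y, Equiv.trans_apply, hl' (h y)]
    exact hγ ⟨(h y : X), hs (h y).2⟩
  · obtain ⟨B4, hB4, l, hl, hl'⟩ := Sm.restrict_mem B1' B1 B2 hB1' hB1 hB2 h.symm
      (Sm.inv_mem _ _ hB1 hB1' h hh) hs
    refine ⟨B4, B2', hB4, hB2', ?_, l.symm.trans k,
      Sm.comp_mem _ _ _ hB4 hB2 hB2' _ (Sm.inv_mem _ _ hB2 hB4 l hl) k hk, ?_⟩
    · have h3 := hl' ⟨δ x, hx2⟩
      have h4 : h.symm ⟨δ x, hs hx2⟩ = ⟨x, hx⟩ := by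
        rw [Equiv.symm_apply_eq]
        exact Subtype.ext (hδ ⟨x, hx⟩)
      rw [h4] at h3
      have h5 : x = ((l ⟨δ x, hx2⟩ : B4) : X) := h3.symm
      rw [h5]
      exact (l _).2
    · intro y
      change γ (δ y) = _
      have h3 := hl' (l.symm y)
      rw [Equiv.apply_symm_apply] at h3
      have h4 : δ (y : X) = (l.symm y : X) := by
        rw [h3, hδ (h.symm ⟨(l.symm y : X), hs (l.symm y).2⟩), Equiv.apply_symm_apply]
      rw [h4, Equiv.trans_apply]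
      exact hγ (l.symm y)

theorem loc_inv {X : Type*} [MetricSpace X] [IsUltrametricDist X] (Sm : FSStr X) (γ : X ≃ₜ X)
    (h1 : Sm.Loc γ) : Sm.Loc γ⁻¹ := by
  intro x
  obtain ⟨B, B', hB, hB', hx, h, hh, hγ⟩ := h1 (γ⁻¹ x)
  have e : ∀ z : X, γ (γ⁻¹ z) = z := fun z => γ.apply_symm_apply z
  refine ⟨B', B, hB', hB, ?_, h.symm, Sm.inv_mem _ _ hB hB' h hh, ?_⟩
  · have h2 := hγ ⟨γ⁻¹ x, hx⟩
    simp only at h2
    rw [e] at h2
    rw [h2]
    exact (h _).2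
  · intro y
    apply γ.injective
    rw [e, hγ (h.symm y), Equiv.apply_symm_apply]

end Pool.Helper4.FSS
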